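import Pool.Agent.Lib_helper8.OracleProof

/-!
# Negative answer to Q1 of MP_88d2b4_lc

No oracle algorithm, not even a randomised one, finds a minimiser of every submodular function on
every product of modular semilattices in polynomial time. The lower bound is on the number of
oracle calls alone, and it already holds for finite-valued functions (the proof uses integer
valued functions on products of copies of the four-element star, that is, 3-submodular functions).
The definitions are in `Pool/Agent/Lib_helper8/OracleDefs.lean`.
-/

namespace Pool.Agent.Results.MP_88d2b4_lc.NoPolyTimeOracle

open Pool.Agent.Lib_helper8.Oracle

/-- **Main theorem** (negative answer to Q1). No oracle algorithm, deterministic or randomised,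
finds a minimiser of every finite-valued submodular function on every product of modular
semilattices within a number of oracle calls polynomial in `n`, `N` and `B`; not even with an
arbitrarily small constant success probability `ε > 0`. -/
theorem result : ∀ ε : ℝ, 0 < ε → ¬ ∃ A : OracleAlgorithm, MinimizesInPolyTime A ε :=
  no_polyTime_algorithm

end Pool.Agent.Results.MP_88d2b4_lc.NoPolyTimeOracle
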